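import Mathlib
import Pool.Agent.Lib.Helper30.DigammaRemainder
import Pool.Agent.Lib.Helper30.DigammaInf

/-!
# The digamma remainder of `MP_d2a7e5_an` is not completely monotonic

For every `a > 4/15` (in particular for `a = a₁ = (40 + 3 √205)/105`) the function
`x ↦ 𝓛(x, a) - ψ(x + 1)` is smooth on `(-1, ∞)` and its fourth derivative at `x = -1/2` is
negative.  Hence it is not completely monotonic on `(-1, ∞)`.  Moreover, at every point
`x > -2/3 - 1/(45a)` infinitely many of the derivatives have the wrong sign, so that the function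
is not completely monotonic on any half-line either.

Proof (in the imported file): `ψ` differs by a constant from the series
`∑ (1/(m+1) - 1/(x+m))` on `(0, ∞)` (both are monotone and satisfy `f (x+1) = f x + 1/x`), so the
fourth derivative of `ψ(x+1)` at `-1/2` is `-24 ∑ (m+1/2)^(-5) ≥ -792`, whereas the fourth
derivative of `𝓛(·, a)` at `-1/2` is `-12 (A/p² + B/q²) ≤ -864`.  For the last conjunct, the
logarithmic term with `q = 1/12 - 1/(45a)` contributes `-2 B (n-1)! ρ^(-n) cos (n θ)` with
`ρ = √((x+1/2)² + q) < x + 1`, which dominates when `cos (n θ) ≥ 1/2`.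
-/

set_option autoImplicit false

open Set
open scoped ContDiff

namespace Pool.Agent.Results.MP_d2a7e5_an.NotCompletelyMonotonic

/-- The (real) digamma function `ψ = Γ'/Γ`. -/
noncomputable def digamma (x : ℝ) : ℝ := deriv Real.Gamma x / Real.Gamma x

/-- The approximation
`𝓛(x, a) = 1/(90a²+2) · ln(x²+x+(3a+1)/3) + 45a²/(90a²+2) · ln(x²+x+(15a-1)/(45a))`. -/
noncomputable def calL (x a : ℝ) : ℝ :=
  1 / (90 * a ^ 2 + 2) * Real.log (x ^ 2 + x + (3 * a + 1) / 3) +
    45 * a ^ 2 / (90 * a ^ 2 + 2) * Real.log (x ^ 2 + x + (15 * a - 1) / (45 * a))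

/-- `F_a(x) = ψ(x+1) - 𝓛(x, a)`. -/
noncomputable def remF (a x : ℝ) : ℝ := digamma (x + 1) - calL x a

/-- The special parameter `a₁ = (40 + 3√205)/105`. -/
noncomputable def a₁ : ℝ := (40 + 3 * Real.sqrt 205) / 105

/-- For every `a > 4/15` (in particular for `a = a₁`, as `a₁ > 4/15`), the function
`-F_a = 𝓛(·, a) - ψ(· + 1)` is `C^∞` on `(-1, ∞)`, but `(-1)^4` times its fourth derivative at the
point `-1/2 > -1` is negative; so `-F_a` is not completely monotonic on `(-1, ∞)`.  Moreover at
every point `x > -2/3 - 1/(45a)` there are infinitely many `n` for which `(-1)^n` times the `n`-th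
derivative is negative; so `-F_a` is not completely monotonic on any half-line `(c, ∞)`. -/
theorem result :
    4 / 15 < a₁ ∧
    ∀ a : ℝ, 4 / 15 < a →
      ContDiffOn ℝ ∞ (fun x => -remF a x) (Set.Ioi (-1)) ∧
      (-1 : ℝ) ^ 4 * iteratedDeriv 4 (fun x => -remF a x) (-1 / 2) < 0 ∧
      ∀ x : ℝ, -2 / 3 - 1 / (45 * a) < x → ∀ N : ℕ, ∃ n ≥ N,
        (-1 : ℝ) ^ n * iteratedDeriv n (fun x => -remF a x) x < 0 := by
  refine ⟨Pool.Agent.Lib.Helper30.DigammaRemainder.main.1, fun a ha => ?_⟩
  obtain ⟨h1, h2⟩ := Pool.Agent.Lib.Helper30.DigammaRemainder.main.2 a ha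
  exact ⟨h1, h2, fun x hx N => Pool.Agent.Lib.Helper30.DigammaRemainder.main_inf a ha x hx N⟩

end Pool.Agent.Results.MP_d2a7e5_an.NotCompletelyMonotonic
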